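import Pool.Agent.H223R3.Flute.Main

set_option autoImplicit false

namespace Pool.Agent.Results.MP_b90f02_an.NoHalfTwists

open Pool.Agent.H223R3.Flute

/-- **Negative answer to Q1 of MP_b90f02_an.**  It is not true that for every non-decreasing
sequence of positive lengths there are twists in `{0, 1 / 2}` for which the tight flute surface is
parabolic (the lengths `ℓ n = (n + 1) ^ 2` are a counterexample). -/
theorem result :
    ¬ ∀ ℓ : ℕ → ℝ, (∀ n, 0 < ℓ n) → Monotone ℓ →
      ∃ t : ℕ → ℝ, (∀ n, t n = 0 ∨ t n = 1 / 2) ∧ IsParabolic ℓ t := by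
  intro h
  have hmono : Monotone fun n : ℕ => ((n : ℝ) + 1) ^ 2 := by
    intro m n hmn
    have h1 : (m : ℝ) ≤ n := by exact_mod_cast hmn
    have h2 : (0 : ℝ) ≤ m := Nat.cast_nonneg m
    simp only
    gcongr
  obtain ⟨t, ht, hP⟩ := h (fun n => ((n : ℝ) + 1) ^ 2) (fun n => by positivity) hmono
  refine not_isParabolic (fun n => by positivity) hmono ?_ ht hP
  have hs : Summable fun n : ℕ => Real.exp (-(n : ℝ)) := Real.summable_exp_neg_nat
  refine Summable.of_nonneg_of_le (fun n => (Real.exp_pos _).le) (fun n => ?_) hs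
  apply Real.exp_le_exp.2
  push_cast
  have : (0 : ℝ) ≤ n := Nat.cast_nonneg n
  nlinarith

end Pool.Agent.Results.MP_b90f02_an.NoHalfTwists
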